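import Mathlib

namespace Pool.Agent.Results.MP_10b4aa_co.ConstFactor

open Finset

lemma down (β : Type) [Fintype β] [DecidableEq β] (k : ℕ) (h : Fintype.card β ≤ 2 * k + 1) :
    ∃ dn : Finset β → Finset β, (∀ A, #A = k + 1 → dn A ⊆ A ∧ #(dn A) = k) ∧
      ∀ A B, #A = k + 1 → #B = k + 1 → dn A = dn B → A = B := by
  have hall : ∀ s : Finset {A : Finset β // #A = k + 1},
      #s ≤ #(s.biUnion (fun A => powersetCard k A.1)) := by
    intro s
    have h1 := local_lubell_yamamoto_meshalkin_inequality_mul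
      (𝒜 := s.map ⟨Subtype.val, Subtype.val_injective⟩) (r := k + 1) (by
        intro A hA
        simp only [coe_map, Set.mem_image] at hA
        obtain ⟨B, -, rfl⟩ := hA
        exact B.2)
    rw [card_map] at h1
    have h2 : (s.map ⟨Subtype.val, Subtype.val_injective⟩).shadow ⊆
        s.biUnion (fun A => powersetCard k A.1) := by
      intro t ht
      rw [mem_shadow_iff_exists_mem_card_add_one] at ht
      obtain ⟨A, hA, hs, hc⟩ := ht
      rw [mem_map] at hA
      obtain ⟨B, hB, rfl⟩ := hA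
      have : #B.1 = #t + 1 := hc
      exact mem_biUnion.2 ⟨B, hB, mem_powersetCard.2 ⟨hs, by have := B.2; omega⟩⟩
    have h3 := Nat.mul_le_mul (card_le_card h2)
      (show Fintype.card β - (k + 1) + 1 ≤ k + 1 by omega)
    exact Nat.le_of_mul_le_mul_right (h1.trans h3) (by omega)
  obtain ⟨f, hf, hm⟩ := (all_card_le_biUnion_card_iff_exists_injective _).1 hall
  refine ⟨fun A => if h : #A = k + 1 then f ⟨A, h⟩ else ∅, fun A hA => ?_, fun A B hA hB he => ?_⟩
  · simp only [hA, dif_pos]
    exact mem_powersetCard.1 (hm ⟨A, hA⟩)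
  · simp only [hA, hB, dif_pos] at he
    exact congrArg Subtype.val (hf he)

lemma upkey (β : Type) [Fintype β] [DecidableEq β] (m : ℕ) (h : Fintype.card β ≤ 2 * m + 1)
    (j : ℕ) : ∃ κ : Finset β → Finset β,
      (∀ A, m ≤ #A → #A ≤ m + j → κ A ⊆ A ∧ #(κ A) = m) ∧
      ∀ A B, m ≤ #A → #A ≤ #B → #B ≤ m + j → κ A = κ B → A ⊆ B := by
  induction j with
  | zero => exact ⟨id, fun A h1 h2 => ⟨subset_rfl, by simp; omega⟩, fun A B _ _ _ h => h.le⟩
  | succ j ih =>
    obtain ⟨κ, h1, h2⟩ := ih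
    obtain ⟨dn, d1, d2⟩ := down β (m + j) (by omega)
    refine ⟨fun A => if #A = m + j + 1 then κ (dn A) else κ A, fun A a1 a2 => ?_,
      fun A B a1 a2 a3 he => ?_⟩
    · by_cases c : #A = m + j + 1
      · simp only [c, if_true]
        have := d1 A c
        have h3 := h1 (dn A) (by omega) (by omega)
        exact ⟨h3.1.trans this.1, h3.2⟩
      · simp only [c, if_false]
        exact h1 A a1 (by omega)
    · by_cases c : #B = m + j + 1
      · have hB := d1 B c
        by_cases c' : #A = m + j + 1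
        · simp only [c, c', if_true] at he
          have hA := d1 A c'
          have := h2 _ _ (by omega) (by omega) (by omega) he
          exact (d2 A B c' c (eq_of_subset_of_card_le this (by omega))).le
        · simp only [c, c', if_true, if_false] at he
          exact (h2 _ _ a1 (by omega) (by omega) he).trans hB.1
      · have c' : ¬ #A = m + j + 1 := by omega
        simp only [c, c', if_false] at he
        exact h2 _ _ a1 a2 (by omega) he

lemma key0 (β : Type) [Fintype β] [DecidableEq β] : ∃ κ : Finset β → Finset β,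
    (∀ A, #(κ A) = Fintype.card β / 2) ∧ ∀ A B, κ A = κ B → A ⊆ B ∨ B ⊆ A := by
  set n := Fintype.card β with hn
  obtain ⟨κ, h1, h2⟩ := upkey β (n / 2) (by omega) n
  obtain ⟨κ', g1, g2⟩ := upkey β (n - n / 2) (by omega) n
  have hc : ∀ A : Finset β, #A ≤ n := fun A => card_le_univ A
  have hcc : ∀ A : Finset β, #Aᶜ = n - #A := fun A => card_compl A
  have mix : ∀ A B : Finset β, n / 2 ≤ #A → ¬ n / 2 ≤ #B → κ A = (κ' Bᶜ)ᶜ → B ⊆ A := by
    intro A B a b he
    have e1 := (h1 A a (by have := hc A; omega)).1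
    have e2 := (g1 Bᶜ (by rw [hcc]; omega) (by rw [hcc]; omega)).1
    rw [he] at e1
    exact fun x hx => e1 (mem_compl.2 fun h => mem_compl.1 (e2 h) hx)
  refine ⟨fun A => if n / 2 ≤ #A then κ A else (κ' Aᶜ)ᶜ, fun A => ?_, fun A B he => ?_⟩
  · by_cases c : n / 2 ≤ #A
    · simp only [c, if_true]
      exact (h1 A c (by have := hc A; omega)).2
    · simp only [c, if_false]
      rw [hcc, (g1 Aᶜ (by rw [hcc]; omega) (by rw [hcc]; omega)).2]
      omega
  · have := hc A
    have := hc B
    by_cases a : n / 2 ≤ #A <;> by_cases b : n / 2 ≤ #B <;>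
      simp only [a, b, if_true, if_false] at he
    · rcases le_total (#A) (#B) with h | h
      · exact Or.inl (h2 A B a h (by omega) he)
      · exact Or.inr (h2 B A b h (by omega) he.symm)
    · exact Or.inr (mix A B a b he)
    · exact Or.inl (mix B A b a he.symm)
    · have he' := compl_injective he
      rcases le_total (#A) (#B) with h | h
      · exact Or.inl (compl_subset_compl.1 (g2 Bᶜ Aᶜ (by rw [hcc]; omega)
          (by rw [hcc, hcc]; omega) (by rw [hcc]; omega) he'.symm))
      · exact Or.inr (compl_subset_compl.1 (g2 Aᶜ Bᶜ (by rw [hcc]; omega)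
          (by rw [hcc, hcc]; omega) (by rw [hcc]; omega) he'))

lemma key1 {α : Type} [DecidableEq α] (S : Finset α) : ∃ κ : Finset α → Finset α,
    (∀ A, κ A ⊆ S ∧ #(κ A) = #S / 2) ∧
      ∀ A B, A ⊆ S → B ⊆ S → κ A = κ B → A ⊆ B ∨ B ⊆ A := by
  obtain ⟨κ, h1, h2⟩ := key0 {x // x ∈ S}
  have tr : ∀ A B : Finset α, A ⊆ S → A.subtype (· ∈ S) ⊆ B.subtype (· ∈ S) → A ⊆ B := by
    intro A B hA h x hx
    have := h (mem_subtype.2 hx : (⟨x, hA hx⟩ : {x // x ∈ S}) ∈ _)
    exact mem_subtype.1 this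
  refine ⟨fun A => (κ (A.subtype (· ∈ S))).map ⟨Subtype.val, Subtype.val_injective⟩,
    fun A => ⟨?_, ?_⟩, fun A B hA hB he => ?_⟩
  · intro x hx
    rw [mem_map] at hx
    obtain ⟨y, -, rfl⟩ := hx
    exact y.2
  · rw [card_map, h1, Fintype.card_coe]
  · rcases h2 _ _ (map_injective _ he) with h | h
    · exact Or.inl (tr A B hA h)
    · exact Or.inr (tr B A hB h)

section
variable {α : Type} [Fintype α] [DecidableEq α] {r : ℕ} (pt : α → Fin r)

def SS (f : α → Fin (r + 1)) (i : Fin r) : Finset α :=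
  univ.filter (fun x => pt x = i ∧ (f x = i.castSucc ∨ f x = i.succ))

def AA (f : α → Fin (r + 1)) (i : Fin r) : Finset α :=
  univ.filter (fun x => pt x = i ∧ f x = i.castSucc)

def lv (f : α → Fin (r + 1)) (j : Fin r) : Finset α := univ.filter (fun x => (f x).1 ≤ j.1)

def TT : Finset (α → Fin (r + 1)) := univ.filter (fun g => ∀ i, #(AA pt g i) = #(SS pt g i) / 2)

lemma cover : ∃ 𝒞 : Finset (Finset (Finset α)), (∀ c ∈ 𝒞, IsChain (· ⊆ ·) (c : Set (Finset α))) ∧
    (∀ F : Fin r → Finset α, StrictMono F → ∃ c ∈ 𝒞, ∀ j, F j ∈ c) ∧ #𝒞 ≤ #(TT pt) := by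
  classical
  choose κ k1 k2 using key1 (α := α)
  let φ : (α → Fin (r + 1)) → α → Fin (r + 1) := fun f x =>
    if x ∈ SS pt f (pt x) then
      (if x ∈ κ (SS pt f (pt x)) (AA pt f (pt x)) then (pt x).castSucc else (pt x).succ) else f x
  have hne : ∀ i : Fin r, i.succ ≠ i.castSucc := fun i => (Fin.castSucc_lt_succ).ne'
  have hS : ∀ f i, SS pt (φ f) i = SS pt f i := by
    intro f i
    ext x
    simp only [SS, mem_filter, mem_univ, true_and]
    refine and_congr_right fun hx => ?_
    subst hx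
    simp only [φ]
    split_ifs with h1 h2
    · simpa [SS] using h1
    · simpa [SS] using h1
    · rfl
  have hA : ∀ f i, AA pt (φ f) i = κ (SS pt f i) (AA pt f i) := by
    intro f i
    ext x
    simp only [AA, mem_filter, mem_univ, true_and]
    constructor
    · rintro ⟨rfl, hx⟩
      simp only [φ] at hx
      split_ifs at hx with h1 h2
      · exact h2
      · exact absurd hx (hne _)
      · exact absurd (by simp [SS, hx]) h1
    · intro hx
      have h1 := (k1 _ _).1 hx
      have h2 : pt x = i := (mem_filter.1 h1).2.1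
      subst h2
      refine ⟨rfl, ?_⟩
      simp only [φ]
      rw [if_pos h1]
      exact if_pos hx
  have hAS : ∀ f i, AA pt f i ⊆ SS pt f i := by
    intro f i x hx
    simp only [AA, SS, mem_filter] at hx ⊢
    tauto
  have hout : ∀ f f', φ f = φ f' → ∀ x, f x = f' x ∨
      ((f x = (pt x).castSucc ∨ f x = (pt x).succ) ∧
        (f' x = (pt x).castSucc ∨ f' x = (pt x).succ)) := by
    intro f f' he x
    have e : SS pt f (pt x) = SS pt f' (pt x) := by rw [← hS f, he, hS]
    by_cases h : x ∈ SS pt f (pt x)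
    · have h' := e ▸ h
      exact Or.inr ⟨(mem_filter.1 h).2.2, (mem_filter.1 h').2.2⟩
    · have h' := e ▸ h
      have := congrFun he x
      simp only [φ] at this
      rw [if_neg h, if_neg h'] at this
      exact Or.inl this
  have hlt : ∀ f f', φ f = φ f' → ∀ j j' : Fin r, j.1 < j'.1 → lv f j ⊆ lv f' j' := by
    intro f f' he j j' h x hx
    simp only [lv, mem_filter, mem_univ, true_and] at hx ⊢
    rcases hout f f' he x with h | ⟨h1 | h1, h2 | h2⟩ <;> simp_all [Fin.ext_iff] <;> omega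
  have heq : ∀ f f', φ f = φ f' → ∀ j : Fin r, AA pt f j ⊆ AA pt f' j → lv f j ⊆ lv f' j := by
    intro f f' he j h x hx
    have h3 := @h x
    simp only [lv, AA, mem_filter, mem_univ, true_and, Fin.ext_iff] at hx h3 ⊢
    rcases hout f f' he x with h | ⟨h1 | h1, h2 | h2⟩ <;>
      simp only [Fin.ext_iff, Fin.val_castSucc, Fin.val_succ] at * <;> omega
  refine ⟨(TT pt).image (fun g => univ.filter (fun A => ∃ f, φ f = g ∧ ∃ j, A = lv f j)),
    ?_, ?_, card_image_le⟩
  · intro c hc
    rw [mem_image] at hc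
    obtain ⟨g, -, rfl⟩ := hc
    intro A hA' B hB _
    simp only [coe_filter, mem_univ, true_and, Set.mem_setOf_eq] at hA' hB
    obtain ⟨f, rfl, j, rfl⟩ := hA'
    obtain ⟨f', he, j', rfl⟩ := hB
    rcases lt_trichotomy j.1 j'.1 with h | h | h
    · exact Or.inl (hlt f f' he.symm j j' h)
    · obtain rfl := Fin.ext h
      have e : SS pt f j = SS pt f' j := by rw [← hS f, ← he, hS]
      have e2 : κ (SS pt f j) (AA pt f j) = κ (SS pt f j) (AA pt f' j) := by
        rw [← hA f, ← he, hA, e]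
      rcases k2 _ _ _ (hAS f j) (e ▸ hAS f' j) e2 with h | h
      · exact Or.inl (heq f f' he.symm j h)
      · exact Or.inr (heq f' f he j h)
    · exact Or.inr (hlt f' f he j' j h)
  · intro F hF
    let f : α → Fin (r + 1) := fun x => ⟨#(univ.filter (fun j => x ∉ F j)), by
      have := card_le_univ (univ.filter (fun j => x ∉ F j))
      simp only [Fintype.card_fin] at this
      omega⟩
    refine ⟨_, mem_image_of_mem _ (a := φ f) ?_, fun j => ?_⟩
    · simp only [TT, mem_filter, mem_univ, true_and]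
      intro i
      rw [hA, hS, (k1 _ _).2]
    · simp only [mem_filter, mem_univ, true_and]
      refine ⟨f, rfl, j, ?_⟩
      ext x
      simp only [lv, mem_filter, mem_univ, true_and, f]
      constructor
      · intro hx
        rw [← Fin.card_Iio j]
        refine card_le_card fun i hi => ?_
        rw [mem_Iio]
        by_contra hc
        exact (mem_filter.1 hi).2 (hF.monotone (not_lt.1 hc) hx)
      · intro h
        by_contra hx
        have : #(Iic j) ≤ #(univ.filter (fun j => x ∉ F j)) := card_le_card fun i hi =>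
          mem_filter.2 ⟨mem_univ _, fun h' => hx (hF.monotone (mem_Iic.1 hi) h')⟩
        rw [Fin.card_Iic] at this
        omega

end

lemma cb_bound (k : ℕ) : Nat.centralBinom k ^ 2 * (2 * k + 1) ≤ 16 ^ k := by
  induction k with
  | zero => simp
  | succ k ih =>
    have h := Nat.succ_mul_centralBinom_succ k
    have h2 : (k + 1) ^ 2 * (Nat.centralBinom (k + 1) ^ 2 * (2 * (k + 1) + 1)) ≤
        (k + 1) ^ 2 * 16 ^ (k + 1) := by
      calc _ = ((k + 1) * Nat.centralBinom (k + 1)) ^ 2 * (2 * k + 3) := by ring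
        _ = (4 * ((2 * k + 1) * (2 * k + 3))) * (Nat.centralBinom k ^ 2 * (2 * k + 1)) := by
          rw [h]; ring
        _ ≤ (16 * (k + 1) ^ 2) * 16 ^ k := Nat.mul_le_mul (by nlinarith) ih
        _ = _ := by ring
    exact Nat.le_of_mul_le_mul_left h2 (by positivity)

lemma mid_bound (s : ℕ) : (s.choose (s / 2)) ^ 2 * (s + 1) ≤ 4 ^ s := by
  obtain ⟨k, rfl | rfl⟩ := Nat.even_or_odd' s
  · have := cb_bound k
    rw [Nat.centralBinom_eq_two_mul_choose] at this
    rw [show 2 * k / 2 = k by omega, pow_mul]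
    exact this
  · have := cb_bound (k + 1)
    rw [Nat.centralBinom_eq_two_mul_choose, show 2 * (k + 1) = (2 * k + 1) + 1 by ring,
      Nat.choose_succ_succ', Nat.choose_symm_half] at this
    rw [show (2 * k + 1) / 2 = k by omega, pow_succ 4, pow_mul]
    rw [pow_succ 16] at this
    norm_num
    nlinarith [Nat.zero_le ((2 * k + 1).choose k ^ 2)]

lemma mid_real (s : ℕ) (t : ℝ) (ht : 0 < t) :
    (s.choose (s / 2) : ℝ) ≤ 2 ^ s * (1 / t + t / (s + 1)) := by
  have h : ((s.choose (s / 2) : ℝ)) ^ 2 * (s + 1) ≤ 4 ^ s := by exact_mod_cast mid_bound s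
  have h4 : (4 : ℝ) ^ s = (2 ^ s) ^ 2 := by rw [← pow_mul, mul_comm, pow_mul]; norm_num
  have hs : (0 : ℝ) < s + 1 := by positivity
  refine (pow_le_pow_iff_left₀ (by positivity) (by positivity) two_ne_zero).1 ?_
  have e : (2 ^ s * (1 / t + t / (s + 1)) : ℝ) ^ 2 =
      (2 ^ s) ^ 2 * ((1 / t) ^ 2 + (t / (s + 1)) ^ 2 + 2 / (s + 1)) := by field_simp; ring
  have h5 : ((s.choose (s / 2) : ℝ)) ^ 2 ≤ (2 ^ s) ^ 2 * (1 / (s + 1)) := by
    rw [mul_one_div, le_div_iff₀ hs, ← h4]; exact h
  rw [e]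
  refine h5.trans (mul_le_mul_of_nonneg_left ?_ (by positivity))
  have : (1 : ℝ) / (s + 1) ≤ 2 / (s + 1) := by gcongr; norm_num
  nlinarith [sq_nonneg (1 / t), sq_nonneg (t / (s + 1))]

lemma sum_bound (p y : ℕ) : (∑ s ∈ range (p + 1), (p.choose s * (s.choose (s / 2) * y ^ (p - s)) : ℝ))
    ≤ (y + 3) * (y + 2) ^ p / √(p + 1) := by
  have hp : (0 : ℝ) < p + 1 := by positivity
  set t := √(p + 1 : ℝ) with ht
  have ht0 : 0 < t := Real.sqrt_pos.2 hp
  have htt : t * t = p + 1 := Real.mul_self_sqrt hp.le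
  have e1 : (∑ s ∈ range (p + 1), (2 ^ s * y ^ (p - s) * p.choose s : ℝ)) = (y + 2) ^ p := by
    rw [add_comm (y : ℝ), add_pow]
  have e2 : (∑ s ∈ range (p + 1), (2 ^ s * y ^ (p - s) * (p + 1).choose (s + 1) : ℝ)) ≤
      (y + 2) ^ (p + 1) := by
    rw [add_comm (y : ℝ), add_pow, sum_range_succ' _ (p + 1)]
    refine le_add_of_le_of_nonneg (sum_le_sum fun s _ => ?_) (by positivity)
    rw [Nat.add_sub_add_right, pow_succ]
    gcongr
    linarith [show (0 : ℝ) < 2 ^ s by positivity]
  calc _ ≤ ∑ s ∈ range (p + 1), ((1 / t) * (2 ^ s * y ^ (p - s) * p.choose s : ℝ) +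
        (1 / t) * (2 ^ s * y ^ (p - s) * (p + 1).choose (s + 1))) := by
        refine sum_le_sum fun s _ => ?_
        have h1 := mid_real s t ht0
        have h2 : ((p : ℝ) + 1) * p.choose s = (p + 1).choose (s + 1) * (s + 1) := by
          exact_mod_cast Nat.add_one_mul_choose_eq p s
        have h3 : ((p + 1).choose (s + 1) : ℝ) = t * t * p.choose s / (s + 1) := by
          rw [htt, h2]; field_simp
        calc _ ≤ (p.choose s * (2 ^ s * (1 / t + t / (s + 1)) * y ^ (p - s)) : ℝ) := by gcongr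
          _ = _ := by rw [h3]; field_simp
    _ ≤ (1 / t) * (y + 2) ^ p + (1 / t) * (y + 2) ^ (p + 1) := by
        rw [sum_add_distrib, ← mul_sum, ← mul_sum, e1]
        gcongr
    _ = _ := by field_simp; ring

def Bal (β L : Type) [Fintype β] [DecidableEq β] [Fintype L] [DecidableEq L] (a b : L) :
    Finset (β → L) :=
  univ.filter (fun g => #(univ.filter (fun x => g x = a)) =
    #(univ.filter (fun x => g x = a ∨ g x = b)) / 2)

lemma bal_card (β L : Type) [Fintype β] [DecidableEq β] [Fintype L] [DecidableEq L] (a b : L)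
    (hab : a ≠ b) (y : ℕ) (hy : Fintype.card L = y + 2) :
    (#(Bal β L a b) : ℝ) ≤ (y + 3) * (y + 2) ^ Fintype.card β / √(Fintype.card β + 1) := by
  refine le_trans ?_ (sum_bound _ y)
  have hsub : Bal β L a b ⊆ (univ : Finset β).powerset.biUnion (fun S =>
      (powersetCard (#S / 2) S).biUnion (fun A => Fintype.piFinset (fun x =>
        if x ∈ S then (if x ∈ A then {a} else {b}) else ({a, b} : Finset L)ᶜ))) := by
    intro g hg
    simp only [Bal, mem_filter, mem_univ, true_and] at hg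
    refine mem_biUnion.2 ⟨univ.filter (fun x => g x = a ∨ g x = b), by simp,
      mem_biUnion.2 ⟨univ.filter (fun x => g x = a), mem_powersetCard.2 ⟨?_, hg⟩, ?_⟩⟩
    · intro x hx
      simp only [mem_filter] at hx ⊢
      tauto
    · rw [Fintype.mem_piFinset]
      intro x
      by_cases h1 : g x = a <;> by_cases h2 : g x = b <;> simp [h1, h2, hab.symm]
  have h1 : #(Bal β L a b) ≤ ∑ S ∈ (univ : Finset β).powerset,
      (#S).choose (#S / 2) * y ^ (Fintype.card β - #S) := by
    refine (card_le_card hsub).trans (card_biUnion_le.trans (sum_le_sum fun S _ => ?_))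
    refine card_biUnion_le.trans ?_
    rw [← card_powersetCard, ← smul_eq_mul]
    refine sum_le_card_nsmul _ _ _ fun A _ => ?_
    rw [Fintype.card_piFinset, ← card_compl, ← prod_const, ← prod_mul_prod_compl S]
    have e1 : ∏ x ∈ S, #(if x ∈ S then (if x ∈ A then {a} else {b}) else ({a, b} : Finset L)ᶜ)
        = 1 := prod_eq_one fun x hx => by
      rw [if_pos hx]; split_ifs <;> simp
    rw [e1, one_mul]
    refine le_of_eq (prod_congr rfl fun x hx => ?_)
    rw [if_neg (mem_compl.1 hx), card_compl, card_pair hab, hy]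
    rfl
  rw [sum_powerset_apply_card (fun s => s.choose (s / 2) * y ^ (Fintype.card β - s)),
    card_univ] at h1
  simp only [smul_eq_mul] at h1
  exact_mod_cast h1

lemma TT_card {α : Type} [Fintype α] [DecidableEq α] {y : ℕ} (pt : α → Fin (y + 1)) (q : ℕ)
    (hq : ∀ i, q ≤ Fintype.card {x // pt x = i}) :
    (#(TT pt) : ℝ) ≤ (y + 2) ^ Fintype.card α * ((y + 3) / √(q + 1)) ^ (y + 1) := by
  have h1 : #(TT pt) ≤ #(Fintype.piFinset (fun i : Fin (y + 1) =>
      Bal {x // pt x = i} (Fin (y + 1 + 1)) i.castSucc i.succ)) := by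
    refine card_le_card_of_injOn (fun g i x => g x.1) ?_ ?_
    · intro g hg
      simp only [TT, coe_filter, mem_univ, true_and, Set.mem_setOf_eq] at hg
      rw [mem_coe, Fintype.mem_piFinset]
      intro i
      simp only [Bal, mem_filter, mem_univ, true_and]
      have tr : ∀ P : α → Prop, ∀ [DecidablePred P],
          #(univ.filter (fun x : {x // pt x = i} => P x.1)) =
            #(univ.filter (fun x => pt x = i ∧ P x)) := by
        intro P _
        refine card_bij (fun x _ => x.1) ?_ ?_ ?_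
        · intro x hx
          simp only [mem_filter, mem_univ, true_and] at hx ⊢
          exact ⟨x.2, hx⟩
        · intro x _ z _ h
          exact Subtype.ext h
        · intro x hx
          simp only [mem_filter, mem_univ, true_and] at hx
          exact ⟨⟨x, hx.1⟩, by simpa using hx.2, rfl⟩
      rw [tr (fun x => g x = i.castSucc), tr (fun x => g x = i.castSucc ∨ g x = i.succ)]
      exact hg i
    · intro g _ g' _ h
      funext x
      exact congrFun (congrFun h (pt x)) ⟨x, rfl⟩
  rw [Fintype.card_piFinset] at h1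
  have h2 : ∑ i, Fintype.card {x // pt x = i} = Fintype.card α := by
    rw [← Fintype.card_sigma]
    exact Fintype.card_congr (Equiv.sigmaFiberEquiv pt)
  calc (#(TT pt) : ℝ) ≤ ∏ i : Fin (y + 1),
        (#(Bal {x // pt x = i} (Fin (y + 1 + 1)) i.castSucc i.succ) : ℝ) := by exact_mod_cast h1
    _ ≤ ∏ i : Fin (y + 1), ((y + 2 : ℝ) ^ Fintype.card {x // pt x = i} * ((y + 3) / √(q + 1))) := by
        refine prod_le_prod (fun _ _ => by positivity) fun i _ => ?_
        refine (bal_card _ _ _ _ (Fin.castSucc_lt_succ).ne y (by simp)).trans ?_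
        rw [mul_comm, mul_div_assoc]
        have : (q : ℝ) ≤ Fintype.card {x // pt x = i} := by exact_mod_cast hq i
        gcongr
    _ = _ := by
        rw [prod_mul_distrib, prod_pow_eq_pow_sum, h2, prod_const, card_univ, Fintype.card_fin]

lemma fact_mono (N m e : ℕ) (h : m ≤ N) :
    N.factorial * (m + e).factorial ≤ (N + e).factorial * m.factorial := by
  induction e with
  | zero => simp
  | succ e ih =>
    rw [← add_assoc, ← add_assoc, Nat.factorial_succ, Nat.factorial_succ]
    calc _ = (m + e + 1) * (N.factorial * (m + e).factorial) := by ring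
      _ ≤ (N + e + 1) * ((N + e).factorial * m.factorial) := Nat.mul_le_mul (by omega) ih
      _ = _ := by ring

lemma fact_up (m : ℕ) (hm : 1 ≤ m) :
    (m.factorial : ℝ) ≤ Real.exp 1 * √m * (m / Real.exp 1) ^ m := by
  obtain ⟨k, rfl⟩ : ∃ k, m = k + 1 := ⟨m - 1, by omega⟩
  have h := Stirling.stirlingSeq'_antitone (Nat.zero_le k)
  simp only [Function.comp, Nat.succ_eq_add_one, zero_add] at h
  rw [Stirling.stirlingSeq_one, Stirling.stirlingSeq, div_le_iff₀ (by positivity),
    Real.sqrt_mul (by norm_num)] at h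
  refine h.trans (le_of_eq ?_)
  field_simp

lemma stir (k m : ℕ) (hm : 1 ≤ m) :
    ((k + 1 : ℝ)) ^ ((k + 1) * m) * (m.factorial : ℝ) ^ (k + 1) ≤
      (Real.exp 1) ^ (k + 1) * √m ^ k * ((k + 1) * m).factorial := by
  have h1 := Stirling.le_factorial_stirling ((k + 1) * m)
  have h2 : √(m : ℝ) ≤ √(2 * Real.pi * ((k + 1) * m : ℕ)) := by
    refine Real.sqrt_le_sqrt ?_
    push_cast
    have := Real.pi_gt_three
    have h0 : (0 : ℝ) ≤ m := by positivity
    have h1 : (0 : ℝ) ≤ k * m := by positivity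
    nlinarith
  have h3 : (m.factorial : ℝ) ^ (k + 1) ≤ (Real.exp 1 * √m * (m / Real.exp 1) ^ m) ^ (k + 1) :=
    pow_le_pow_left₀ (by positivity) (fact_up m hm) _
  calc _ ≤ ((k + 1 : ℝ)) ^ ((k + 1) * m) *
        (Real.exp 1 * √m * (m / Real.exp 1) ^ m) ^ (k + 1) := by gcongr
    _ = (Real.exp 1) ^ (k + 1) * √m ^ k *
        (√m * ((((k + 1) * m : ℕ) : ℝ) / Real.exp 1) ^ ((k + 1) * m)) := by
        push_cast
        rw [mul_div_assoc, mul_pow (k + 1 : ℝ), mul_pow, mul_pow, ← pow_mul, mul_comm m (k + 1),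
          pow_succ (√(m : ℝ))]
        ring
    _ ≤ _ := by
        gcongr
        exact le_trans (by gcongr) h1

theorem result (r : ℕ) (hr : 1 ≤ r) : ∃ C : ℝ, ∀ n : ℕ, r + 1 ≤ n →
    ∃ 𝒞 : Finset (Finset (Finset (Fin n))),
      (∀ c ∈ 𝒞, IsChain (· ⊆ ·) (c : Set (Finset (Fin n)))) ∧
      (∀ F : Fin r → Finset (Fin n), StrictMono F → ∃ c ∈ 𝒞, ∀ j, F j ∈ c) ∧
      ∃ a : Fin (r + 1) → ℕ, (∀ i, 1 ≤ a i) ∧ ∑ i, a i = n ∧
        (𝒞.card : ℝ) ≤ C * Nat.multinomial Finset.univ a := by
  obtain ⟨y, rfl⟩ : ∃ y, r = y + 1 := ⟨r - 1, by omega⟩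
  refine ⟨(y + 2) ^ (y + 2) * (y + 3) ^ (y + 1) * (Real.exp 1) ^ (y + 2), fun n hn => ?_⟩
  obtain ⟨m, hm⟩ : ∃ m, m = n / (y + 2) := ⟨_, rfl⟩
  obtain ⟨e, he⟩ : ∃ e, e = n % (y + 2) := ⟨_, rfl⟩
  have hn' : n = (y + 2) * m + e := by rw [hm, he, Nat.div_add_mod]
  have he' : e < y + 2 := he ▸ Nat.mod_lt _ (by omega)
  have hm1 : 1 ≤ m := hm ▸ Nat.div_pos (by omega) (by omega)
  let pt : Fin n → Fin (y + 1) := fun x => ⟨x.1 % (y + 1), Nat.mod_lt _ (by omega)⟩
  have hq : ∀ i, m ≤ Fintype.card {x // pt x = i} := by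
    intro i
    have := Fintype.card_le_of_injective (fun j : Fin m => (⟨⟨i.1 + (y + 1) * j.1, by
      have := i.2
      have := Nat.mul_le_mul_left (y + 1) (Nat.succ_le_of_lt j.2)
      nlinarith⟩, by
        ext
        simp only [pt]
        rw [Nat.add_mul_mod_self_left, Nat.mod_eq_of_lt i.2]⟩ : {x // pt x = i})) (by
      intro j j' h
      simp only [Subtype.mk.injEq, Fin.mk.injEq, add_right_inj] at h
      exact Fin.ext (Nat.eq_of_mul_eq_mul_left (by omega) h))
    simpa using this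
  obtain ⟨𝒞, c1, c2, c3⟩ := cover pt
  have hT := TT_card pt m hq
  rw [Fintype.card_fin] at hT
  let a : Fin (y + 1 + 1) → ℕ := Fin.cons (m + e) (fun _ => m)
  have hs : ∑ i, a i = n := by
    rw [Fin.sum_univ_succ]
    simp [a]
    linarith
  refine ⟨𝒞, c1, c2, a, fun i => ?_, hs, ?_⟩
  · refine Fin.cases ?_ (fun i => ?_) i
    · simp only [a, Fin.cons_zero]; omega
    · simpa [a] using hm1
  have hspec := Nat.multinomial_spec univ a
  rw [hs, Fin.prod_univ_succ] at hspec
  simp only [a, Fin.cons_zero, Fin.cons_succ, prod_const, card_univ, Fintype.card_fin] at hspec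
  set M := Nat.multinomial univ a with hM
  have hf := fact_mono ((y + 2) * m) m e (by nlinarith)
  rw [← hn', ← hspec] at hf
  have hf2 : ((y + 2) * m).factorial ≤ m.factorial ^ (y + 2) * M := by
    refine Nat.le_of_mul_le_mul_right (c := (m + e).factorial) (hf.trans (le_of_eq ?_))
      (Nat.factorial_pos _)
    ring
  have hf3 : (((y + 1 + 1) * m).factorial : ℝ) ≤ (m.factorial : ℝ) ^ (y + 2) * M := by
    exact_mod_cast hf2
  have h4 := stir (y + 1) m hm1
  have hpos : (0 : ℝ) < (m.factorial : ℝ) ^ (y + 2) := by positivity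
  have h5 : ((y + 2 : ℝ)) ^ ((y + 2) * m) ≤ (Real.exp 1) ^ (y + 2) * √m ^ (y + 1) * M := by
    refine le_of_mul_le_mul_right ?_ hpos
    have e1 : ((y + 1 : ℕ) + 1 : ℝ) = y + 2 := by push_cast; ring
    rw [e1] at h4
    refine h4.trans ?_
    calc _ ≤ (Real.exp 1) ^ (y + 2) * √m ^ (y + 1) * ((m.factorial : ℝ) ^ (y + 2) * M) := by
          gcongr
      _ = _ := by ring
  have hsq : (0 : ℝ) < √m := Real.sqrt_pos.2 (by exact_mod_cast hm1)
  have h6 : ((y + 2 : ℝ)) ^ n ≤ (y + 2) ^ ((y + 2) * m) * (y + 2) ^ (y + 2) := by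
    rw [← pow_add]
    exact pow_le_pow_right₀ (by linarith [show (0 : ℝ) ≤ y by positivity]) (by omega)
  calc (#𝒞 : ℝ) ≤ #(TT pt) := by exact_mod_cast c3
    _ ≤ _ := hT
    _ ≤ ((Real.exp 1) ^ (y + 2) * √m ^ (y + 1) * M * (y + 2) ^ (y + 2)) *
        ((y + 3) / √m) ^ (y + 1) := by
        gcongr
        · exact h6.trans (by gcongr)
        · linarith
    _ = _ := by
        rw [div_pow]
        field_simp

end Pool.Agent.Results.MP_10b4aa_co.ConstFactor
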